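import Pool.Agent.R542.Star.Fwd

/-!
# A fast tour of the star gives a satisfying assignment
-/

set_option autoImplicit false

namespace Pool.Agent.NPC.R542.Star

open Finset

section
variable (n : ℕ) (x : ℕ → ℕ)

/-- the leaves visited up to time `T` -/
def vis (T : ℕ) : Finset ℕ := by
  classical
  exact (range n).filter fun v => ∃ τ ≤ T, x τ = v

/-- the loss up to time `T` -/
def ww (T : ℕ) : ℤ := (T : ℤ) + (if x T = n then 0 else 1) - 2 * (vis n x T).card

variable {n x}

theorem mem_vis {T v : ℕ} : v ∈ vis n x T ↔ v < n ∧ ∃ τ ≤ T, x τ = v := by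
  classical
  unfold vis
  rw [mem_filter, mem_range]

theorem vis_succ {T : ℕ} (h : x (T + 1) = x T ∨ n ≤ x (T + 1)) :
    vis n x (T + 1) = vis n x T := by
  ext v
  rw [mem_vis, mem_vis]
  constructor
  · rintro ⟨hv, τ, hτ, e⟩
    rcases Nat.lt_or_ge T τ with h1 | h1
    · have : τ = T + 1 := by omega
      subst this
      rcases h with h | h
      · exact ⟨hv, T, le_rfl, by rw [← h, e]⟩
      · omega
    · exact ⟨hv, τ, h1, e⟩
  · rintro ⟨hv, τ, hτ, e⟩
    exact ⟨hv, τ, by omega, e⟩

theorem vis_succ_card (T : ℕ) : (vis n x (T + 1)).card ≤ (vis n x T).card + 1 := by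
  have h : vis n x (T + 1) ⊆ insert (x (T + 1)) (vis n x T) := by
    intro v hv
    rw [mem_vis] at hv
    obtain ⟨hv, τ, hτ, e⟩ := hv
    rw [mem_insert, mem_vis]
    rcases Nat.lt_or_ge T τ with h1 | h1
    · have : τ = T + 1 := by omega
      subst this
      exact Or.inl e.symm
    · exact Or.inr ⟨hv, τ, h1, e⟩
  exact (card_le_card h).trans (card_insert_le _ _)

variable {E : ℕ → ℕ → Bool} {t : ℕ}

/-- The loss does not decrease; it increases when the agent waits. -/
theorem ww_step (hs : ∀ T < t, Step n E T (x T) (x (T + 1))) {T : ℕ} (hT : T < t) :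
    ww n x T ≤ ww n x (T + 1) ∧ (x (T + 1) = x T → ww n x T < ww n x (T + 1)) := by
  unfold ww
  rcases hs T hT with h | ⟨h1, h2, h3⟩ | ⟨h1, h2, h3⟩
  · rw [vis_succ (Or.inl h), h]
    push_cast
    constructor
    · omega
    · intro _; omega
  · have h4 := vis_succ_card (n := n) (x := x) T
    rw [if_pos h1, if_neg (by omega)]
    push_cast
    constructor
    · omega
    · intro h; omega
  · rw [vis_succ (Or.inr (by omega)), if_pos h1, if_neg (by omega)]
    push_cast
    constructor
    · omega
    · intro h; omega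

theorem ww_mono (hs : ∀ T < t, Step n E T (x T) (x (T + 1))) {T T' : ℕ} (h : T ≤ T')
    (hT' : T' ≤ t) : ww n x T ≤ ww n x T' := by
  induction T', h using Nat.le_induction with
  | base => exact le_rfl
  | succ k hk ih => exact (ih (by omega)).trans (ww_step hs (by omega)).1

/-- the times at which the loss increases -/
def inc (n : ℕ) (x : ℕ → ℕ) (k : ℕ) : Finset ℕ := (range k).filter fun T => ww n x T < ww n x (T + 1)

theorem inc_card (hs : ∀ T < t, Step n E T (x T) (x (T + 1))) (k : ℕ) (hk : k ≤ t) :
    ((inc n x k).card : ℤ) ≤ ww n x k - ww n x 0 := by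
  induction k with
  | zero => simp [inc]
  | succ k ih =>
    have h1 := ih (by omega)
    have h2 := (ww_step hs (show k < t by omega)).1
    unfold inc at *
    rw [range_add_one, filter_insert]
    split_ifs with h3
    · rw [card_insert_of_notMem (by simp)]
      push_cast
      omega
    · omega

theorem ww_zero (h0 : x 0 = n) : ww n x 0 = 0 := by
  unfold ww
  have : vis n x 0 = ∅ := by
    ext v
    rw [mem_vis]
    constructor
    · rintro ⟨hv, τ, hτ, e⟩
      have : τ = 0 := by omega
      subst this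
      omega
    · intro h
      exact absurd h (notMem_empty v)
  rw [this, if_pos h0]
  simp

theorem ww_end (hc : ∀ v ≤ n, ∃ T ≤ t, x T = v) : ww n x t ≤ (t : ℤ) + 1 - 2 * n := by
  unfold ww
  have : vis n x t = range n := by
    ext v
    rw [mem_vis, mem_range]
    exact ⟨fun h => h.1, fun h => ⟨h, hc v h.le⟩⟩
  rw [this, card_range]
  split_ifs <;> omega

/-- The first visit of a leaf. -/
theorem first (h0 : x 0 = n) (hs : ∀ T < t, Step n E T (x T) (x (T + 1)))
    (hc : ∀ v ≤ n, ∃ T ≤ t, x T = v) {v : ℕ} (hv : v < n) :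
    ∃ a, 1 ≤ a ∧ a ≤ t ∧ x a = v ∧ E v (a - 1) = true := by
  have hex : ∃ T, x T = v := by
    obtain ⟨T, _, h⟩ := hc v hv.le
    exact ⟨T, h⟩
  classical
  have h1 := Nat.find_spec hex
  have h2 : Nat.find hex ≤ t := by
    obtain ⟨T, hT, h⟩ := hc v hv.le
    exact (Nat.find_min' hex h).trans hT
  have h3 : 1 ≤ Nat.find hex := by
    by_contra h
    have h4 : Nat.find hex = 0 := by omega
    rw [h4, h0] at h1
    omega
  refine ⟨Nat.find hex, h3, h2, h1, ?_⟩
  have h4 : ¬ x (Nat.find hex - 1) = v := Nat.find_min hex (by omega)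
  have h5 := hs (Nat.find hex - 1) (by omega)
  rw [Nat.sub_add_cancel h3, h1] at h5
  rcases h5 with h | ⟨_, _, h⟩ | ⟨h, _⟩
  · exact absurd h.symm h4
  · exact h
  · omega

end

theorem kk_group {N g : ℕ} {v : ℕ} (h1 : g * kk N ≤ v) (h2 : v < (g + 1) * kk N) :
    v / kk N = g :=
  Nat.div_eq_of_lt_le h1 h2

/-- **A tour gives an assignment.** -/
theorem bwd {N m : ℕ} {cl : ℕ → ℕ → Bool → Bool} (hcl : ∀ j i b, cl j i b = true → i < N)
    (h : CoverW (nn N m) (tt N m) (prs N m cl)) : SatB N m cl := by
  obtain ⟨x, h0, hs, hc⟩ := h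
  set L := ll N m with hL
  have hLp : 0 < L := ll_pos
  have hLdef : L = 2 * gg N m + 10 := rfl
  have hLe : ∀ q, (q * L) % 2 = 0 := by
    intro q
    have : q * L = 2 * (q * (gg N m + 5)) := by
      rw [hL]; unfold ll; ring
    rw [this, Nat.mul_mod_right]
  have hn : nn N m = (3 * N + 1) * L := rfl
  have hL1 : 1 * L ≤ (3 * N + 1) * L := Nat.mul_le_mul_right _ (by omega)
  have ht : tt N m = 2 * nn N m + N - 1 := rfl
  have hw0 := ww_zero h0
  have hwt : ww (nn N m) x (tt N m) ≤ N := by
    have := ww_end hc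
    omega
  have hwn : ∀ T, T ≤ tt N m → 0 ≤ ww (nn N m) x T ∧ ww (nn N m) x T ≤ N := by
    intro T hT
    have h1 := ww_mono hs (Nat.zero_le T) hT
    have h2 := ww_mono hs hT le_rfl
    omega
  have hinc : (inc (nn N m) x (tt N m)).card ≤ N := by
    have := inc_card hs (tt N m) le_rfl
    omega
  -- first visits
  have hfirst : ∀ v, ∃ a, v < nn N m → (1 ≤ a ∧ a ≤ tt N m ∧ x a = v ∧
      prs N m cl v (a - 1) = true) := by
    intro v
    by_cases hv : v < nn N m
    · obtain ⟨a, ha⟩ := first h0 hs hc hv
      exact ⟨a, fun _ => ha⟩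
    · exact ⟨0, fun h => absurd h hv⟩
  choose a ha using hfirst
  have hnG : gg N m ≤ nn N m := by omega
  -- a good copy in every group
  have hgood : ∀ g, ∃ v q, g < N + 1 + m → (v < gg N m ∧ alw N cl g q = true ∧
      a v = q * L + (5 + 2 * v + par q)) := by
    intro g
    by_cases hg : g < N + 1 + m
    swap
    · exact ⟨0, 0, fun h => absurd h hg⟩
    by_contra hcon
    push Not at hcon
    have hcon' : ∀ v q, v < gg N m → alw N cl g q = true →
        a v ≠ q * L + (5 + 2 * v + par q) := fun v q => (hcon v q).2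
    set S := Ico (g * kk N) ((g + 1) * kk N) with hS
    have hSG : ∀ v ∈ S, v < gg N m := by
      intro v hv
      rw [hS, mem_Ico] at hv
      have h1 : (g + 1) * kk N ≤ kk N * (N + 1 + m) := by
        rw [mul_comm]
        exact Nat.mul_le_mul_left _ hg
      exact lt_of_lt_of_le hv.2 h1
    have hScard : S.card = kk N := by
      rw [hS, Nat.card_Ico, add_mul, one_mul, Nat.add_sub_cancel_left]
    have hcopy : ∀ v ∈ S, v / kk N = g := by
      intro v hv
      rw [hS, mem_Ico] at hv
      exact kk_group hv.1 hv.2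
    set TT := insert (tt N m) (inc (nn N m) x (tt N m)) ∪
      ((range (qq N)).image (fun q => q * L + 2) ∪
        (range (qq N)).image (fun q => q * L + L - 1)) with hTT
    have hinj : Set.InjOn a S := by
      intro v hv w hw hvw
      have h1 := (ha v (lt_of_lt_of_le (hSG v hv) hnG)).2.2.1
      have h2 := (ha w (lt_of_lt_of_le (hSG w hw) hnG)).2.2.1
      rw [← h1, ← h2, hvw]
    have hsub : S.image a ⊆ TT := by
      intro T hT
      rw [mem_image] at hT
      obtain ⟨v, hv, rfl⟩ := hT
      obtain ⟨h1, h2, h3, h4⟩ := ha v (lt_of_lt_of_le (hSG v hv) hnG)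
      have hvG := hSG v hv
      rw [hTT, mem_union, mem_insert]
      by_cases hlast : a v = tt N m
      · exact Or.inl (Or.inl hlast)
      by_cases hstay : x (a v + 1) = x (a v)
      · left; right
        unfold inc
        rw [mem_filter, mem_range]
        exact ⟨by omega, (ww_step hs (show a v < tt N m by omega)).2 hstay⟩
      -- visited without loss
      right
      have h5 : prs N m cl v (a v - 1 + 1) = true := by
        rw [Nat.sub_add_cancel h1]
        rcases hs (a v) (by omega) with h | ⟨h, _⟩ | ⟨_, _, h⟩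
        · exact absurd h hstay
        · omega
        · rwa [h3] at h
      obtain ⟨hal, hpos⟩ := prs_slot hvG h4 h5
      rw [hcopy v hv] at hal
      have hdm := Nat.div_add_mod (a v - 1) (ll N m)
      rw [mul_comm] at hdm
      rw [← hL] at hdm hal hpos
      have hq : (a v - 1) / L < qq N := by
        unfold alw at hal
        unfold qq
        by_cases hgN : g ≤ N
        · rw [if_pos hgN, decide_eq_true_eq] at hal
          omega
        · rw [if_neg hgN, Bool.or_eq_true, Bool.and_eq_true, Bool.and_eq_true,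
            decide_eq_true_eq, decide_eq_true_eq] at hal
          rcases hal with ⟨e1, e2⟩ | ⟨e1, e2⟩
          · have := hcl _ _ _ e2
            omega
          · have := hcl _ _ _ e2
            omega
      rw [mem_union, mem_image, mem_image]
      rcases hpos with h6 | h6 | h6
      · exfalso
        apply hcon' v ((a v - 1) / L) hvG hal
        omega
      · left
        exact ⟨(a v - 1) / L, mem_range.2 hq, by omega⟩
      · right
        exact ⟨(a v - 1) / L, mem_range.2 hq, by omega⟩
    have hc1 : TT.card ≤ (N + 1) + (qq N + qq N) := by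
      refine (card_union_le _ _).trans (Nat.add_le_add ?_ ?_)
      · exact (card_insert_le _ _).trans (by omega)
      · refine (card_union_le _ _).trans (Nat.add_le_add ?_ ?_)
        · exact card_image_le.trans (by rw [card_range])
        · exact card_image_le.trans (by rw [card_range])
    have hc2 : (S.image a).card = kk N := by rw [card_image_of_injOn hinj, hScard]
    have hc3 := card_le_card hsub
    rw [hc2] at hc3
    unfold kk qq at *
    omega
  choose vg qg hvq using hgood
  -- times and losses of the good copies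
  have hA : ∀ g, g < N + 1 + m → a (vg g) ≤ tt N m ∧
      (ww (nn N m) x (a (vg g))) % 2 = (par (qg g) : ℤ) ∧
      qg g * L < a (vg g) ∧ a (vg g) < (qg g + 1) * L := by
    intro g hg
    obtain ⟨h1, h2, h3⟩ := hvq g hg
    obtain ⟨h4, h5, h6, h7⟩ := ha (vg g) (lt_of_lt_of_le h1 hnG)
    have h8 := par_lt (qg g)
    refine ⟨h5, ?_, by omega, ?_⟩
    · unfold ww
      rw [if_neg (by omega)]
      have h9 := hLe (qg g)
      omega
    · rw [add_mul, one_mul]
      omega
  -- the synchronizing groups
  have hsq : ∀ g, g ≤ N → qg g = 3 * g := by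
    intro g hg
    have h1 := (hvq g (by omega)).2.1
    unfold alw at h1
    rw [if_pos hg, decide_eq_true_eq] at h1
    exact h1
  have hsp : ∀ g, g ≤ N → (ww (nn N m) x (a (vg g))) % 2 = (g : ℤ) % 2 := by
    intro g hg
    have h1 := (hA g (by omega)).2.1
    rw [hsq g hg] at h1
    unfold par at h1
    omega
  have hord : ∀ g g', g < N + 1 + m → g' < N + 1 + m → qg g < qg g' →
      a (vg g) ≤ a (vg g') := by
    intro g g' hg hg' h
    have h1 := (hA g hg).2.2.2
    have h2 := (hA g' hg').2.2.1
    have h3 : (qg g + 1) * L ≤ qg g' * L := Nat.mul_le_mul_right _ h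
    omega
  have hsm : ∀ g, g + 1 ≤ N → ww (nn N m) x (a (vg g)) + 1 ≤ ww (nn N m) x (a (vg (g + 1))) := by
    intro g hg
    have h1 := hord g (g + 1) (by omega) (by omega) (by
      rw [hsq g (by omega), hsq (g + 1) hg]; omega)
    have h2 := ww_mono hs h1 (hA (g + 1) (by omega)).1
    have h3 := hsp g (by omega)
    have h4 := hsp (g + 1) hg
    push_cast at h4
    omega
  have hlow : ∀ g, g ≤ N → (g : ℤ) ≤ ww (nn N m) x (a (vg g)) := by
    intro g
    induction g with
    | zero =>
      intro _
      exact (hwn _ (hA 0 (by omega)).1).1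
    | succ g ih =>
      intro hg
      have h1 := ih (by omega)
      have h2 := hsm g hg
      push_cast
      omega
  have hupp : ∀ k, k ≤ N → ww (nn N m) x (a (vg (N - k))) ≤ (N : ℤ) - k := by
    intro k
    induction k with
    | zero =>
      intro _
      have := (hwn _ (hA N (by omega)).1).2
      rw [Nat.sub_zero]
      push_cast
      omega
    | succ k ih =>
      intro hk
      have h1 := ih (by omega)
      have h2 := hsm (N - (k + 1)) (by omega)
      have h3 : N - (k + 1) + 1 = N - k := by omega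
      rw [h3] at h2
      push_cast
      omega
  have hsync : ∀ g, g ≤ N → ww (nn N m) x (a (vg g)) = g := by
    intro g hg
    have h1 := hlow g hg
    have h2 := hupp (N - g) (by omega)
    rw [show N - (N - g) = g by omega] at h2
    omega
  -- the assignment
  refine ⟨fun i => decide (ww (nn N m) x ((3 * i + 2) * L) ≤ i), fun j hj => ?_⟩
  have hg : N + 1 + j < N + 1 + m := by omega
  obtain ⟨h1, h2, h3⟩ := hvq (N + 1 + j) hg
  obtain ⟨h4, h5, h6, h7⟩ := hA (N + 1 + j) hg
  unfold alw at h2
  rw [if_neg (by omega), show N + 1 + j - N - 1 = j by omega, Bool.or_eq_true,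
    Bool.and_eq_true, Bool.and_eq_true, decide_eq_true_eq, decide_eq_true_eq] at h2
  set q := qg (N + 1 + j) with hq
  have hi : q / 3 < N := by
    rcases h2 with ⟨_, e⟩ | ⟨_, e⟩
    · exact hcl _ _ _ e
    · exact hcl _ _ _ e
  have hne : q % 3 = 1 ∨ q % 3 = 2 := by
    rcases h2 with ⟨e, _⟩ | ⟨e, _⟩
    · exact Or.inl e
    · exact Or.inr e
  -- the loss is between those at the neighbouring synchronizing groups
  have hl1 : ((q / 3 : ℕ) : ℤ) ≤ ww (nn N m) x (a (vg (N + 1 + j))) := by
    rw [← hsync (q / 3) hi.le]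
    exact ww_mono hs (hord _ _ (by omega) hg (by rw [hsq _ hi.le]; omega)) h4
  have hl2 : ww (nn N m) x (a (vg (N + 1 + j))) ≤ ((q / 3 + 1 : ℕ) : ℤ) := by
    rw [← hsync (q / 3 + 1) hi]
    exact ww_mono hs (hord _ _ hg (by omega) (by rw [hsq _ hi]; omega))
      (hA (q / 3 + 1) (by omega)).1
  have hbt : (3 * (q / 3) + 2) * L ≤ tt N m := by
    have : (3 * (q / 3) + 2) * L ≤ (3 * N + 1) * L := Nat.mul_le_mul_right _ (by omega)
    omega
  unfold par at h5
  push_cast at hl2
  rcases h2 with ⟨e1, e2⟩ | ⟨e1, e2⟩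
  · refine ⟨q / 3, hi, false, e2, ?_⟩
    rw [decide_eq_false_iff_not]
    have h8 : a (vg (N + 1 + j)) ≤ (3 * (q / 3) + 2) * L := by
      have : (q + 1) * L ≤ (3 * (q / 3) + 2) * L := Nat.mul_le_mul_right _ (by omega)
      omega
    have h9 := ww_mono hs h8 hbt
    omega
  · refine ⟨q / 3, hi, true, e2, ?_⟩
    rw [decide_eq_true_eq]
    have h8 : (3 * (q / 3) + 2) * L ≤ a (vg (N + 1 + j)) := by
      have : (3 * (q / 3) + 2) * L ≤ q * L := Nat.mul_le_mul_right _ (by omega)
      omega
    have h9 := ww_mono hs h8 h4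
    omega

end Pool.Agent.NPC.R542.Star
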