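import Pool.Agent.R542.Star.Bwd
import Pool.Agent.R542.Base
import Pool.Agent.R542.CayMain

/-!
# Formulas with renamed variables
-/

set_option autoImplicit false

namespace Pool.Agent.NPC.R542.Star

open Pool.Agent.H692R2 Pool.Agent.H673R2 Pool.Agent.NPC.R542.Cay

theorem sat3_lit (φ : F3) : SAT3 φ ↔ ∃ τ : ℕ → Bool, ∀ j < φ.length, ∃ a < 3,
    τ (lit φ (3 * j + a)).2 = (lit φ (3 * j + a)).1 := by
  have e : ∀ i p, p < 3 → (3 * i + p) / 3 = i := by intro i p hp; omega
  have e' : ∀ i p, p < 3 → (3 * i + p) % 3 = p := by intro i p hp; omega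
  constructor
  · rintro ⟨τ, hτ⟩
    refine ⟨τ, fun j hj => ?_⟩
    have h := hτ φ[j] (List.getElem_mem hj)
    have hg : φ.getD j ((true, 0), (true, 0), (true, 0)) = φ[j] := by simp [hj]
    rcases h with h | h | h
    · refine ⟨0, by norm_num, ?_⟩
      unfold lit
      simp only [e j 0 (by norm_num), e' j 0 (by norm_num), hg]
      simpa using h
    · refine ⟨1, by norm_num, ?_⟩
      unfold lit
      simp only [e j 1 (by norm_num), e' j 1 (by norm_num), hg]
      simpa using h
    · refine ⟨2, by norm_num, ?_⟩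
      unfold lit
      simp only [e j 2 (by norm_num), e' j 2 (by norm_num), hg]
      simpa using h
  · rintro ⟨τ, hτ⟩
    refine ⟨τ, fun c hc => ?_⟩
    obtain ⟨j, hj, hjc⟩ := List.mem_iff_getElem.1 hc
    obtain ⟨a, ha, h⟩ := hτ j hj
    have hg : φ.getD j ((true, 0), (true, 0), (true, 0)) = c := by
      rw [List.getD_eq_getElem _ _ hj, hjc]
    unfold lit at h
    simp only [e j a ha, e' j a ha, hg] at h
    have h3 : a = 0 ∨ a = 1 ∨ a = 2 := by omega
    rcases h3 with h4 | h4 | h4
    · left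
      subst h4
      simpa using h
    · right; left
      subst h4
      simpa using h
    · right; right
      subst h4
      simpa using h

/-- the variables of a formula -/
def vars (φ : F3) : List ℕ := (List.range (3 * φ.length)).map fun q => (lit φ q).2

/-- the number of the variable of the literal number `p` -/
def vnum (φ : F3) (p : ℕ) : ℕ := rank (vars φ) (lit φ p).2

/-- the clause `j` contains the literal that is true if the variable `i` has the value `b` -/
def cl (φ : F3) (j i : ℕ) (b : Bool) : Bool :=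
  decide (i < 3 * φ.length) &&
    ((decide (vnum φ (3 * j) = i) && decide ((lit φ (3 * j)).1 = b)) ||
    ((decide (vnum φ (3 * j + 1) = i) && decide ((lit φ (3 * j + 1)).1 = b)) ||
    (decide (vnum φ (3 * j + 2) = i) && decide ((lit φ (3 * j + 2)).1 = b))))

theorem cl_lt (φ : F3) (j i : ℕ) (b : Bool) (h : cl φ j i b = true) : i < 3 * φ.length := by
  unfold cl at h
  rw [Bool.and_eq_true, decide_eq_true_eq] at h
  exact h.1

theorem cl_iff {φ : F3} {j i : ℕ} {b : Bool} (hi : i < 3 * φ.length) :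
    cl φ j i b = true ↔ ∃ a < 3, vnum φ (3 * j + a) = i ∧ (lit φ (3 * j + a)).1 = b := by
  unfold cl
  rw [Bool.and_eq_true, decide_eq_true_eq]
  simp only [Bool.or_eq_true, Bool.and_eq_true, decide_eq_true_eq]
  constructor
  · rintro ⟨_, h | h | h⟩
    · exact ⟨0, by norm_num, h⟩
    · exact ⟨1, by norm_num, h⟩
    · exact ⟨2, by norm_num, h⟩
  · rintro ⟨a, ha, h⟩
    refine ⟨hi, ?_⟩
    have h3 : a = 0 ∨ a = 1 ∨ a = 2 := by omega
    rcases h3 with h4 | h4 | h4
    · subst h4; exact Or.inl h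
    · subst h4; exact Or.inr (Or.inl h)
    · subst h4; exact Or.inr (Or.inr h)

theorem mem_vars {φ : F3} {q : ℕ} (hq : q < 3 * φ.length) : (lit φ q).2 ∈ vars φ :=
  List.mem_map.2 ⟨q, List.mem_range.2 hq, rfl⟩

theorem vnum_lt {φ : F3} {q : ℕ} (hq : q < 3 * φ.length) : vnum φ q < 3 * φ.length := by
  have h := rank_lt_length (mem_vars hq)
  have h2 : (vars φ).length = 3 * φ.length := by simp [vars]
  rw [h2] at h
  exact h

theorem satB_iff (φ : F3) : SAT3 φ ↔ SatB (3 * φ.length) φ.length (cl φ) := by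
  classical
  rw [sat3_lit]
  constructor
  · rintro ⟨τ, hτ⟩
    refine ⟨fun i => if h : ∃ v ∈ vars φ, rank (vars φ) v = i then τ h.choose else false,
      fun j hj => ?_⟩
    obtain ⟨a, ha, h⟩ := hτ j hj
    have hp : 3 * j + a < 3 * φ.length := by omega
    refine ⟨vnum φ (3 * j + a), vnum_lt hp, (lit φ (3 * j + a)).1,
      (cl_iff (vnum_lt hp)).2 ⟨a, ha, rfl, rfl⟩, ?_⟩
    have hex : ∃ v ∈ vars φ, rank (vars φ) v = vnum φ (3 * j + a) := ⟨_, mem_vars hp, rfl⟩
    simp only
    rw [dif_pos hex, ← h]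
    exact congrArg τ (rank_inj hex.choose_spec.1 (mem_vars hp) hex.choose_spec.2)
  · rintro ⟨x, hx⟩
    refine ⟨fun v => x (rank (vars φ) v), fun j hj => ?_⟩
    obtain ⟨i, hi, b, hc, hb⟩ := hx j hj
    obtain ⟨a, ha, h1, h2⟩ := (cl_iff hi).1 hc
    refine ⟨a, ha, ?_⟩
    change x (vnum φ (3 * j + a)) = _
    rw [h1, h2, hb]

/-! ### Computation -/

section
variable {α : Type} [TEnc α]

theorem poly_rank {L : α → List ℕ} {v : α → ℕ} (hL : Poly L) (hv : Poly v) :
    Poly (fun a => rank (L a) (v a)) := by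
  refine Poly.length (Poly.filter (p := fun a u => decide (u < v a)) hL ?_)
  exact Poly.decide_lt (Poly.snd Poly.id) (hv.comp (Poly.fst Poly.id))

theorem upoly_len {φ : α → F3} (hφ : Poly φ) : UPoly (fun a => (φ a).length) := UPoly.length hφ

theorem upoly_3len {φ : α → F3} (hφ : Poly φ) : UPoly (fun a => 3 * (φ a).length) :=
  UPoly.mul (UPoly.const 3) (upoly_len hφ)

theorem poly_vars {φ : α → F3} (hφ : Poly φ) : Poly (fun a => vars (φ a)) := by
  have e : Poly (fun p : α × ℕ => (lit (φ p.1) p.2).2) :=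
    Poly.snd (poly_lit (hφ.comp (Poly.fst Poly.id)) (Poly.snd Poly.id))
  exact Poly.map (l := fun a => List.range (3 * (φ a).length)) (F := fun a q => (lit (φ a) q).2)
    (UPoly.range (upoly_3len hφ)) e

theorem poly_vnum {φ : α → F3} {p : α → ℕ} (hφ : Poly φ) (hp : Poly p) :
    Poly (fun a => vnum (φ a) (p a)) :=
  poly_rank (poly_vars hφ) (Poly.snd (poly_lit hφ hp))

theorem poly_cl {φ : α → F3} {j i : α → ℕ} (b : Bool) (hφ : Poly φ) (hj : Poly j)
    (hi : Poly i) : Poly (fun a => cl (φ a) (j a) (i a) b) := by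
  have h3j : Poly (fun a => 3 * j a) := Poly.mul (Poly.const 3) hj
  have h3j1 : Poly (fun a => 3 * j a + 1) := Poly.add h3j (Poly.const 1)
  have h3j2 : Poly (fun a => 3 * j a + 2) := Poly.add h3j (Poly.const 2)
  have hN : Poly (fun a => 3 * (φ a).length) := (upoly_3len hφ).toPoly
  have e0 : Poly (fun a => decide (i a < 3 * (φ a).length)) := Poly.decide_lt hi hN
  have f0 : Poly (fun a => decide (vnum (φ a) (3 * j a) = i a)) :=
    Poly.decide_eq (poly_vnum hφ h3j) hi
  have f1 : Poly (fun a => decide (vnum (φ a) (3 * j a + 1) = i a)) :=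
    Poly.decide_eq (poly_vnum hφ h3j1) hi
  have f2 : Poly (fun a => decide (vnum (φ a) (3 * j a + 2) = i a)) :=
    Poly.decide_eq (poly_vnum hφ h3j2) hi
  have g0 : Poly (fun a => decide ((lit (φ a) (3 * j a)).1 = b)) :=
    Poly.decide_eq (Poly.fst (poly_lit hφ h3j)) (Poly.const b)
  have g1 : Poly (fun a => decide ((lit (φ a) (3 * j a + 1)).1 = b)) :=
    Poly.decide_eq (Poly.fst (poly_lit hφ h3j1)) (Poly.const b)
  have g2 : Poly (fun a => decide ((lit (φ a) (3 * j a + 2)).1 = b)) :=
    Poly.decide_eq (Poly.fst (poly_lit hφ h3j2)) (Poly.const b)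
  exact Poly.and e0 (Poly.or (Poly.and f0 g0) (Poly.or (Poly.and f1 g1) (Poly.and f2 g2)))

/-! the parameters of the instance -/

theorem upoly_kk {φ : α → F3} (hφ : Poly φ) : UPoly (fun a => kk (3 * (φ a).length)) :=
  UPoly.add (UPoly.mul (UPoly.const 7) (upoly_3len hφ)) (UPoly.const 4)

theorem upoly_gg {φ : α → F3} (hφ : Poly φ) :
    UPoly (fun a => gg (3 * (φ a).length) (φ a).length) :=
  UPoly.mul (upoly_kk hφ) (UPoly.add (UPoly.add (upoly_3len hφ) (UPoly.const 1)) (upoly_len hφ))

theorem upoly_ll {φ : α → F3} (hφ : Poly φ) :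
    UPoly (fun a => ll (3 * (φ a).length) (φ a).length) :=
  UPoly.add (UPoly.mul (UPoly.const 2) (upoly_gg hφ)) (UPoly.const 10)

theorem upoly_nn {φ : α → F3} (hφ : Poly φ) :
    UPoly (fun a => nn (3 * (φ a).length) (φ a).length) :=
  UPoly.mul (UPoly.add (UPoly.mul (UPoly.const 3) (upoly_3len hφ)) (UPoly.const 1)) (upoly_ll hφ)

theorem poly_tt {φ : α → F3} (hφ : Poly φ) :
    Poly (fun a => tt (3 * (φ a).length) (φ a).length) :=
  Poly.sub (Poly.add (Poly.mul (Poly.const 2) (upoly_nn hφ).toPoly) (upoly_3len hφ).toPoly)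
    (Poly.const 1)

theorem poly_par {q : α → ℕ} (hq : Poly q) : Poly (fun a => par (q a)) :=
  Poly.mod (Poly.add (Poly.div hq (Poly.const 3))
    (Poly.mod (Poly.mod hq (Poly.const 3)) (Poly.const 2))) (Poly.const 2)

theorem poly_alw {φ : α → F3} {g q : α → ℕ} (hφ : Poly φ) (hg : Poly g) (hq : Poly q) :
    Poly (fun a => alw (3 * (φ a).length) (cl (φ a)) (g a) (q a)) := by
  have hN : Poly (fun a => 3 * (φ a).length) := (upoly_3len hφ).toPoly
  have e0 : Poly (fun a => decide (g a ≤ 3 * (φ a).length)) := Poly.decide_le hg hN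
  have e1 : Poly (fun a => decide (q a = 3 * g a)) :=
    Poly.decide_eq hq (Poly.mul (Poly.const 3) hg)
  have hj : Poly (fun a => g a - 3 * (φ a).length - 1) := Poly.sub (Poly.sub hg hN) (Poly.const 1)
  have hi : Poly (fun a => q a / 3) := Poly.div hq (Poly.const 3)
  have m1 : Poly (fun a => decide (q a % 3 = 1)) :=
    Poly.decide_eq (Poly.mod hq (Poly.const 3)) (Poly.const 1)
  have m2 : Poly (fun a => decide (q a % 3 = 2)) :=
    Poly.decide_eq (Poly.mod hq (Poly.const 3)) (Poly.const 2)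
  have c1 := poly_cl false hφ hj hi
  have c2 := poly_cl true hφ hj hi
  exact Poly.ite e0 e1 (Poly.or (Poly.and m1 c1) (Poly.and m2 c2))

theorem poly_pat {L δ o p : α → ℕ} (hL : Poly L) (hδ : Poly δ) (ho : Poly o) (hp : Poly p) :
    Poly (fun a => pat (L a) (δ a) (o a) (p a)) := by
  have p0 : Poly (fun a => decide (p a = 0)) := Poly.decide_eq hp (Poly.const 0)
  have o0 : Poly (fun a => decide (o a = 0)) := Poly.decide_eq ho (Poly.const 0)
  have o2 : Poly (fun a => o a % 2) := Poly.mod ho (Poly.const 2)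
  have odd : Poly (fun a => decide (o a % 2 = 1)) := Poly.decide_eq o2 (Poly.const 1)
  have evn : Poly (fun a => decide (o a % 2 = 0)) := Poly.decide_eq o2 (Poly.const 0)
  have o3 : Poly (fun a => decide (3 ≤ o a)) := Poly.decide_le (Poly.const 3) ho
  have oδ : Poly (fun a => decide (o a < δ a)) := Poly.decide_lt ho hδ
  have δo : Poly (fun a => decide (δ a + 2 ≤ o a)) := Poly.decide_le (Poly.add hδ (Poly.const 2)) ho
  have oL : Poly (fun a => decide (o a + 3 ≤ L a)) := Poly.decide_le (Poly.add ho (Poly.const 3)) hL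
  exact Poly.ite p0 (Poly.not (Poly.or (Poly.or o0 (Poly.and (Poly.and odd o3) oδ))
    (Poly.and evn δo))) (Poly.not (Poly.or (Poly.and evn oδ) (Poly.and (Poly.and odd δo) oL)))

theorem poly_prs {φ : α → F3} {v T : α → ℕ} (hφ : Poly φ) (hv : Poly v) (hT : Poly T) :
    Poly (fun a => prs (3 * (φ a).length) (φ a).length (cl (φ a)) (v a) (T a)) := by
  have hG := (upoly_gg hφ).toPoly
  have hL := (upoly_ll hφ).toPoly
  have hK := (upoly_kk hφ).toPoly
  have e0 : Poly (fun a => decide (gg (3 * (φ a).length) (φ a).length ≤ v a)) :=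
    Poly.decide_le hG hv
  have hq : Poly (fun a => T a / ll (3 * (φ a).length) (φ a).length) := Poly.div hT hL
  have ho : Poly (fun a => T a % ll (3 * (φ a).length) (φ a).length) := Poly.mod hT hL
  have hg : Poly (fun a => v a / kk (3 * (φ a).length)) := Poly.div hv hK
  have ha := poly_alw hφ hg hq
  have hpar := poly_par hq
  have hδ : Poly (fun a => 4 + 2 * v a + par (T a / ll (3 * (φ a).length) (φ a).length)) :=
    Poly.add (Poly.add (Poly.const 4) (Poly.mul (Poly.const 2) hv)) hpar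
  have hpat := poly_pat hL hδ ho hpar
  have hodd : Poly (fun a => decide (T a % ll (3 * (φ a).length) (φ a).length % 2 = 1)) :=
    Poly.decide_eq (Poly.mod ho (Poly.const 2)) (Poly.const 1)
  have ha' : Poly (fun a => decide (alw (3 * (φ a).length) (cl (φ a))
      (v a / kk (3 * (φ a).length)) (T a / ll (3 * (φ a).length) (φ a).length) = true)) :=
    Poly.decide_eq ha (Poly.const true)
  exact Poly.ite e0 (Poly.const true) (Poly.ite ha' hpat hodd)

end

end Pool.Agent.NPC.R542.Star
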