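import Pool.Agent.R542.Star.Pat

/-!
# A satisfying assignment gives a fast tour of the star
-/

set_option autoImplicit false

namespace Pool.Agent.NPC.R542.Star

open Finset

/-- A step at time `T` in the star with centre `n` and leaves `0, …, n - 1`. -/
def Step (n : ℕ) (E : ℕ → ℕ → Bool) (T u v : ℕ) : Prop :=
  v = u ∨ (u = n ∧ v < n ∧ E v T = true) ∨ (v = n ∧ u < n ∧ E u T = true)

/-- From the centre all vertices can be visited by time `t`. -/
def CoverW (n t : ℕ) (E : ℕ → ℕ → Bool) : Prop :=
  ∃ x : ℕ → ℕ, x 0 = n ∧ (∀ T < t, Step n E T (x T) (x (T + 1))) ∧ ∀ v ≤ n, ∃ T ≤ t, x T = v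

/-- The clauses `0, …, m - 1` can be satisfied; `cl j i b` says that the literal that is true if
the variable `i` has the value `b` is in the clause `j`. -/
def SatB (N m : ℕ) (cl : ℕ → ℕ → Bool → Bool) : Prop :=
  ∃ x : ℕ → Bool, ∀ j < m, ∃ i < N, ∃ b, cl j i b = true ∧ x i = b

section
variable (N m : ℕ) (x : ℕ → Bool)

/-- the times of the waits -/
def bet (i : ℕ) : ℕ := if x i = true then (3 * i + 3) * ll N m else (3 * i + 1) * ll N m

/-- the number of waits up to time `T` -/
def phi (T : ℕ) : ℕ := ((range N).filter fun i => bet N m x i ≤ T).card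

variable {N m x}

theorem bet_lower (i : ℕ) : (3 * i + 1) * ll N m ≤ bet N m x i := by
  unfold bet
  split_ifs
  · exact Nat.mul_le_mul_right _ (by omega)
  · exact le_rfl

theorem bet_upper (i : ℕ) : bet N m x i ≤ (3 * i + 3) * ll N m := by
  unfold bet
  split_ifs
  · exact le_rfl
  · exact Nat.mul_le_mul_right _ (by omega)

theorem bet_lt {i j : ℕ} (h : i < j) : bet N m x i < bet N m x j := by
  have h1 := bet_upper (N := N) (m := m) (x := x) i
  have h2 := bet_lower (N := N) (m := m) (x := x) j
  have h3 : (3 * i + 3) * ll N m < (3 * j + 1) * ll N m :=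
    Nat.mul_lt_mul_of_pos_right (by omega) ll_pos
  omega

theorem bet_inj {i j : ℕ} (h : bet N m x i = bet N m x j) : i = j := by
  rcases Nat.lt_trichotomy i j with h1 | h1 | h1
  · exact absurd h (bet_lt h1).ne
  · exact h1
  · exact absurd h (bet_lt h1).ne'

theorem bet_mod (i : ℕ) : bet N m x i % ll N m = 0 := by
  unfold bet
  split_ifs <;> exact Nat.mul_mod_left _ _

theorem phi_mono {T T' : ℕ} (h : T ≤ T') : phi N m x T ≤ phi N m x T' := by
  apply card_le_card
  intro i hi
  rw [mem_filter] at hi ⊢
  exact ⟨hi.1, hi.2.trans h⟩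

theorem phi_succ (T : ℕ) : phi N m x (T + 1) ≤ phi N m x T + 1 := by
  have h1 : (range N).filter (fun i => bet N m x i ≤ T + 1) ⊆
      (range N).filter (fun i => bet N m x i ≤ T) ∪
      (range N).filter (fun i => bet N m x i = T + 1) := by
    intro i hi
    rw [mem_filter] at hi
    rw [mem_union, mem_filter, mem_filter]
    rcases Nat.lt_or_ge T (bet N m x i) with h | h
    · exact Or.inr ⟨hi.1, by omega⟩
    · exact Or.inl ⟨hi.1, h⟩
  have h2 : ((range N).filter (fun i => bet N m x i = T + 1)).card ≤ 1 := by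
    rw [card_le_one]
    intro i hi j hj
    rw [mem_filter] at hi hj
    exact bet_inj (hi.2.trans hj.2.symm)
  exact (card_le_card h1).trans ((card_union_le _ _).trans (Nat.add_le_add_left h2 _))

theorem phi_succ_eq {T : ℕ} (h : (T + 1) % ll N m ≠ 0) : phi N m x (T + 1) = phi N m x T := by
  unfold phi
  congr 1
  apply filter_congr
  intro i _
  constructor
  · intro h1
    by_contra h2
    have h3 : bet N m x i = T + 1 := by omega
    have h4 := bet_mod (N := N) (m := m) (x := x) i
    rw [h3] at h4
    exact h h4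
  · intro h1
    omega

theorem phi_le (T : ℕ) : phi N m x T ≤ T := by
  induction T with
  | zero =>
    have : phi N m x 0 = 0 := by
      unfold phi
      rw [card_eq_zero, filter_eq_empty_iff]
      intro i _ h
      have h1 := bet_lower (N := N) (m := m) (x := x) i
      have h2 : 0 < (3 * i + 1) * ll N m := Nat.mul_pos (by omega) ll_pos
      omega
    omega
  | succ T ih =>
    have := phi_succ (N := N) (m := m) (x := x) T
    omega

theorem phi_eq {T i : ℕ} (hi : i ≤ N) (h1 : ∀ j < i, bet N m x j ≤ T)
    (h2 : ∀ j, i ≤ j → j < N → T < bet N m x j) : phi N m x T = i := by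
  have h : (range N).filter (fun i => bet N m x i ≤ T) = range i := by
    ext j
    rw [mem_filter, mem_range, mem_range]
    constructor
    · rintro ⟨h3, h4⟩
      by_contra h5
      have := h2 j (by omega) h3
      omega
    · intro h3
      exact ⟨by omega, h1 j h3⟩
  unfold phi
  rw [h, card_range]

theorem seg {T q : ℕ} (h : T / ll N m = q) : q * ll N m ≤ T ∧ T < (q + 1) * ll N m := by
  subst h
  constructor
  · exact Nat.div_mul_le_self _ _
  · rw [Nat.mul_comm]
    exact Nat.lt_mul_div_succ T ll_pos

theorem phi_sync {T i : ℕ} (hi : i ≤ N) (h : T / ll N m = 3 * i) : phi N m x T = i := by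
  obtain ⟨h1, h2⟩ := seg h
  refine phi_eq hi (fun j hj => ?_) (fun j hj _ => ?_)
  · have h3 := bet_upper (N := N) (m := m) (x := x) j
    have h4 : (3 * j + 3) * ll N m ≤ 3 * i * ll N m := Nat.mul_le_mul_right _ (by omega)
    omega
  · have h3 := bet_lower (N := N) (m := m) (x := x) j
    have h4 : (3 * i + 1) * ll N m ≤ (3 * j + 1) * ll N m := Nat.mul_le_mul_right _ (by omega)
    omega

theorem phi_neg {T i : ℕ} (hi : i < N) (hx : x i = false) (h : T / ll N m = 3 * i + 1) :
    phi N m x T = i + 1 := by
  obtain ⟨h1, h2⟩ := seg h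
  refine phi_eq hi (fun j hj => ?_) (fun j hj _ => ?_)
  · rcases Nat.lt_or_ge j i with hji | hji
    · have h3 := bet_upper (N := N) (m := m) (x := x) j
      have h4 : (3 * j + 3) * ll N m ≤ (3 * i + 1) * ll N m := Nat.mul_le_mul_right _ (by omega)
      omega
    · have : j = i := by omega
      subst this
      unfold bet
      rw [hx]
      simpa using h1
  · have h3 := bet_lower (N := N) (m := m) (x := x) j
    have h4 : (3 * i + 1 + 1) * ll N m ≤ (3 * j + 1) * ll N m :=
      Nat.mul_le_mul_right _ (by omega)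
    omega

theorem phi_pos {T i : ℕ} (hi : i < N) (hx : x i = true) (h : T / ll N m = 3 * i + 2) :
    phi N m x T = i := by
  obtain ⟨h1, h2⟩ := seg h
  refine phi_eq hi.le (fun j hj => ?_) (fun j hj _ => ?_)
  · have h3 := bet_upper (N := N) (m := m) (x := x) j
    have h4 : (3 * j + 3) * ll N m ≤ (3 * i + 2) * ll N m := Nat.mul_le_mul_right _ (by omega)
    omega
  · rcases Nat.lt_or_ge i j with hji | hji
    · have h3 := bet_lower (N := N) (m := m) (x := x) j
      have h4 : (3 * i + 2 + 1) * ll N m ≤ (3 * j + 1) * ll N m :=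
        Nat.mul_le_mul_right _ (by omega)
      omega
    · have : j = i := by omega
      subst this
      unfold bet
      rw [hx]
      simpa using h2

theorem phi_end {T : ℕ} (h : 3 * N * ll N m ≤ T) : phi N m x T = N := by
  refine phi_eq le_rfl (fun j hj => ?_) (fun j hj h' => absurd h' (by omega))
  have h3 := bet_upper (N := N) (m := m) (x := x) j
  have h4 : (3 * j + 3) * ll N m ≤ 3 * N * ll N m := Nat.mul_le_mul_right _ (by omega)
  omega

/-- progress of the agent -/
def yy (N m : ℕ) (x : ℕ → Bool) (T : ℕ) : ℕ := T - phi N m x T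

theorem yy_add (T : ℕ) : yy N m x T + phi N m x T = T := by
  have := phi_le (N := N) (m := m) (x := x) T
  unfold yy
  omega

theorem yy_step (T : ℕ) : yy N m x (T + 1) = yy N m x T ∨ yy N m x (T + 1) = yy N m x T + 1 := by
  have h1 := yy_add (N := N) (m := m) (x := x) T
  have h2 := yy_add (N := N) (m := m) (x := x) (T + 1)
  have h3 := phi_succ (N := N) (m := m) (x := x) T
  have h4 := phi_mono (N := N) (m := m) (x := x) (Nat.le_succ T)
  simp only [Nat.succ_eq_add_one] at h4
  omega

theorem yy_mono {T T' : ℕ} (h : T ≤ T') : yy N m x T ≤ yy N m x T' := by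
  have : Monotone (yy N m x) := monotone_nat_of_le_succ fun T => by
    have := yy_step (N := N) (m := m) (x := x) T
    omega
  exact this h

theorem yy_strict {T : ℕ} (h : (T + 1) % ll N m ≠ 0) : yy N m x (T + 1) = yy N m x T + 1 := by
  have h1 := yy_add (N := N) (m := m) (x := x) T
  have h2 := yy_add (N := N) (m := m) (x := x) (T + 1)
  have h3 := phi_succ_eq (N := N) (m := m) (x := x) h
  omega

/-- Two times with the same progress at which the next step is a real one are equal. -/
theorem yy_unique {T T' : ℕ} (h : yy N m x T = yy N m x T')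
    (h1 : yy N m x (T + 1) = yy N m x T + 1) (h2 : yy N m x (T' + 1) = yy N m x T' + 1) :
    T = T' := by
  rcases Nat.lt_trichotomy T T' with h3 | h3 | h3
  · have := yy_mono (N := N) (m := m) (x := x) (show T + 1 ≤ T' from h3)
    omega
  · exact h3
  · have := yy_mono (N := N) (m := m) (x := x) (show T' + 1 ≤ T from h3)
    omega

theorem yy_zero : yy N m x 0 = 0 := by
  unfold yy
  omega

theorem yy_ivt (k t : ℕ) (h : k ≤ yy N m x t) : ∃ T ≤ t, yy N m x T = k := by
  induction t with
  | zero =>
    rw [yy_zero] at h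
    exact ⟨0, le_rfl, by rw [yy_zero]; omega⟩
  | succ t ih =>
    rcases Nat.lt_or_ge (yy N m x t) k with h1 | h1
    · have h2 := yy_step (N := N) (m := m) (x := x) t
      exact ⟨t + 1, le_rfl, by omega⟩
    · obtain ⟨T, hT, e⟩ := ih h1
      exact ⟨T, by omega, e⟩

end

/-- **A satisfying assignment gives a tour.** -/
theorem fwd {N m : ℕ} {cl : ℕ → ℕ → Bool → Bool} (h : SatB N m cl) :
    CoverW (nn N m) (tt N m) (prs N m cl) := by
  obtain ⟨x, hx⟩ := h
  set L := ll N m with hL
  have hLp : 0 < L := ll_pos
  have hLe : ∀ q, (q * L) % 2 = 0 := by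
    intro q
    have : q * L = 2 * (q * (gg N m + 5)) := by
      rw [hL]; unfold ll; ring
    rw [this, Nat.mul_mod_right]
  -- the segment in which a group is served
  have hseg : ∀ g, ∃ q, g < N + 1 + m → (alw N cl g q = true ∧ q ≤ 3 * N ∧
      ∀ T, T / L = q → phi N m x T % 2 = par q) := by
    intro g
    by_cases hg : g < N + 1 + m
    swap
    · exact ⟨0, fun h => absurd h hg⟩
    by_cases hgN : g ≤ N
    · refine ⟨3 * g, fun _ => ⟨?_, by omega, fun T hT => ?_⟩⟩
      · unfold alw
        rw [if_pos hgN, decide_eq_true_eq]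
      · rw [phi_sync hgN hT]
        unfold par
        omega
    · obtain ⟨i, hi, b, hc, hb⟩ := hx (g - N - 1) (by omega)
      cases b with
      | false =>
        refine ⟨3 * i + 1, fun _ => ⟨?_, by omega, fun T hT => ?_⟩⟩
        · unfold alw
          rw [if_neg hgN]
          have e1 : (3 * i + 1) % 3 = 1 := by omega
          have e2 : (3 * i + 1) / 3 = i := by omega
          rw [e1, e2, hc]
          rfl
        · rw [phi_neg hi hb hT]
          unfold par
          omega
      | true =>
        refine ⟨3 * i + 2, fun _ => ⟨?_, by omega, fun T hT => ?_⟩⟩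
        · unfold alw
          rw [if_neg hgN]
          have e1 : (3 * i + 2) % 3 = 2 := by omega
          have e2 : (3 * i + 2) / 3 = i := by omega
          rw [e1, e2, hc]
          rfl
        · rw [phi_pos hi hb hT]
          unfold par
          omega
  choose qs hqs using hseg
  have hgrp : ∀ v, v < gg N m → v / kk N < N + 1 + m := by
    intro v hv
    exact Nat.div_lt_of_lt_mul hv
  -- the times at which the leaves of the groups are served
  set tau : ℕ → ℕ := fun v => qs (v / kk N) * L + (4 + 2 * v + par (qs (v / kk N))) with htau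
  have hdm : ∀ q o, o < L → (q * L + o) / L = q ∧ (q * L + o) % L = o := by
    intro q o ho
    constructor
    · rw [mul_comm, Nat.mul_add_div hLp, Nat.div_eq_of_lt ho, Nat.add_zero]
    · rw [mul_comm, Nat.mul_add_mod, Nat.mod_eq_of_lt ho]
  have hbd : ∀ v, v < gg N m → 4 + 2 * v + par (qs (v / kk N)) + 7 ≤ L := fun v hv =>
    delta_bound hv
  have htd : ∀ v, v < gg N m → tau v / L = qs (v / kk N) ∧
      tau v % L = 4 + 2 * v + par (qs (v / kk N)) := fun v hv =>
    hdm _ _ (by have := hbd v hv; omega)
  have hyev : ∀ v, v < gg N m → yy N m x (tau v) % 2 = 0 := by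
    intro v hv
    have h1 := (hqs (v / kk N) (hgrp v hv)).2.2 (tau v) (htd v hv).1
    have h2 := yy_add (N := N) (m := m) (x := x) (tau v)
    have h3 : tau v % 2 = par (qs (v / kk N)) := by
      have h4 := hLe (qs (v / kk N))
      have h5 := par_lt (qs (v / kk N))
      have h6 : tau v = qs (v / kk N) * L + (4 + 2 * v + par (qs (v / kk N))) := rfl
      omega
    omega
  have hstr : ∀ v, v < gg N m → yy N m x (tau v + 1) = yy N m x (tau v) + 1 := by
    intro v hv
    apply yy_strict
    have h1 := hdm (qs (v / kk N)) (4 + 2 * v + par (qs (v / kk N)) + 1)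
      (by have := hbd v hv; omega)
    have h2 : tau v + 1 = qs (v / kk N) * L + (4 + 2 * v + par (qs (v / kk N)) + 1) := rfl
    rw [h2, ← hL, h1.2]
    omega
  have hstr2 : ∀ v, v < gg N m → yy N m x (tau v + 1 + 1) = yy N m x (tau v + 1) + 1 := by
    intro v hv
    apply yy_strict
    have h1 := hdm (qs (v / kk N)) (4 + 2 * v + par (qs (v / kk N)) + 2)
      (by have := hbd v hv; omega)
    have h2 : tau v + 1 + 1 = qs (v / kk N) * L + (4 + 2 * v + par (qs (v / kk N)) + 2) := rfl
    rw [h2, ← hL, h1.2]
    omega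
  have hn : nn N m = (3 * N + 1) * L := rfl
  have hrho : ∀ v, v < gg N m → yy N m x (tau v) / 2 < nn N m := by
    intro v hv
    have h1 := yy_add (N := N) (m := m) (x := x) (tau v)
    have h2 : tau v < (3 * N + 1) * L := by
      have h3 := (hqs (v / kk N) (hgrp v hv)).2.1
      have h4 := (seg (N := N) (m := m) (htd v hv).1).2
      have h5 : (qs (v / kk N) + 1) * L ≤ (3 * N + 1) * L := Nat.mul_le_mul_right _ (by omega)
      rw [← hL] at h4
      omega
    rw [hn]
    omega
  have hnG : gg N m ≤ nn N m := by
    have h1 : 1 * L ≤ (3 * N + 1) * L := Nat.mul_le_mul_right _ (by omega)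
    have h2 : L = 2 * gg N m + 10 := rfl
    omega
  -- the order of the visits
  obtain ⟨σ, hσ⟩ : ∃ σ : Equiv.Perm (Fin (nn N m)), ∀ v (hv : v < gg N m),
      σ ⟨yy N m x (tau v) / 2, hrho v hv⟩ = ⟨v, by omega⟩ := by
    have i1 : Function.Injective
        (fun v : Fin (gg N m) => (⟨yy N m x (tau v) / 2, hrho v v.2⟩ : Fin (nn N m))) := by
      intro v w hvw
      simp only [Fin.mk.injEq] at hvw
      have h1 := hyev v v.2
      have h2 := hyev w w.2
      have h3 : yy N m x (tau v) = yy N m x (tau w) := by omega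
      have h4 := yy_unique h3 (hstr v v.2) (hstr w w.2)
      obtain ⟨a1, a2⟩ := htd v v.2
      obtain ⟨b1, b2⟩ := htd w w.2
      rw [h4, b1] at a1
      rw [h4, b2, a1] at a2
      exact Fin.ext (by omega)
    have i2 : Function.Injective (fun v : Fin (gg N m) => (⟨v, by omega⟩ : Fin (nn N m))) := by
      intro v w hvw
      simp only [Fin.mk.injEq] at hvw
      exact Fin.ext hvw
    obtain ⟨σ, hσ⟩ := Equiv.Perm.exists_extending_pair _ _ i1 i2
    exact ⟨σ, fun v hv => hσ ⟨v, hv⟩⟩
  -- the tour
  set sg : ℕ → ℕ := fun r => if h : r < nn N m then (σ ⟨r, h⟩ : ℕ) else 0 with hsg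
  have hsg_lt : ∀ r, r < nn N m → sg r < nn N m := by
    intro r hr
    simp only [hsg, dif_pos hr]
    exact (σ ⟨r, hr⟩).2
  have hsg_grp : ∀ r, r < nn N m → ∀ v, v < gg N m → sg r = v → r = yy N m x (tau v) / 2 := by
    intro r hr v hv h
    simp only [hsg, dif_pos hr] at h
    have h1 := hσ v hv
    have h2 : σ ⟨r, hr⟩ = σ ⟨yy N m x (tau v) / 2, hrho v hv⟩ := by
      rw [h1]
      exact Fin.ext h
    have h3 := σ.injective h2
    simpa using h3
  have hnpos : 0 < nn N m := by
    have h1 : 1 * L ≤ (3 * N + 1) * L := Nat.mul_le_mul_right _ (by omega)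
    omega
  have hyt : yy N m x (tt N m) = 2 * nn N m - 1 := by
    have h1 := yy_add (N := N) (m := m) (x := x) (tt N m)
    have h2 : phi N m x (tt N m) = N := by
      apply phi_end
      rw [← hL]
      have h3 : 3 * N * L ≤ (3 * N + 1) * L := Nat.mul_le_mul_right _ (by omega)
      have h4 : tt N m = 2 * nn N m + N - 1 := rfl
      omega
    have h4 : tt N m = 2 * nn N m + N - 1 := rfl
    omega
  have hyb : ∀ T, T ≤ tt N m → yy N m x T / 2 < nn N m := by
    intro T hT
    have := yy_mono (N := N) (m := m) (x := x) hT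
    omega
  refine ⟨fun T => if yy N m x T % 2 = 0 then nn N m else sg (yy N m x T / 2), ?_, ?_, ?_⟩
  · simp only [yy_zero]
    rfl
  · intro T hT
    have hb := hyb T hT.le
    have hb' := hyb (T + 1) hT
    rcases yy_step (N := N) (m := m) (x := x) T with h1 | h1
    · left
      simp only [h1]
    · right
      by_cases he : yy N m x T % 2 = 0
      · left
        have he' : ¬ yy N m x (T + 1) % 2 = 0 := by omega
        have hhalf : yy N m x (T + 1) / 2 = yy N m x T / 2 := by omega
        simp only [he, he', if_true, if_false, hhalf]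
        refine ⟨trivial, hsg_lt _ hb, ?_⟩
        by_cases hv : sg (yy N m x T / 2) < gg N m
        · have h2 := hsg_grp _ hb _ hv rfl
          have h3 := hyev _ hv
          have h4 : yy N m x T = yy N m x (tau (sg (yy N m x T / 2))) := by omega
          have h5 := yy_unique h4 h1 (hstr _ hv)
          have h6 := prs_des (cl := cl) hv (hqs _ (hgrp _ hv)).1
          rw [show qs (sg (yy N m x T / 2) / kk N) * ll N m + (4 + 2 * sg (yy N m x T / 2) +
            par (qs (sg (yy N m x T / 2) / kk N))) = T from h5.symm] at h6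
          exact h6.1
        · unfold prs
          rw [if_pos (by omega)]
      · right
        have he' : yy N m x (T + 1) % 2 = 0 := by omega
        simp only [he, he', if_true, if_false]
        refine ⟨trivial, hsg_lt _ hb, ?_⟩
        by_cases hv : sg (yy N m x T / 2) < gg N m
        · have h2 := hsg_grp _ hb _ hv rfl
          have h3 := hyev _ hv
          have h3' := hstr _ hv
          have h4 : yy N m x T = yy N m x (tau (sg (yy N m x T / 2)) + 1) := by omega
          have h5 := yy_unique h4 h1 (hstr2 _ hv)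
          have h6 := prs_des (cl := cl) hv (hqs _ (hgrp _ hv)).1
          rw [show qs (sg (yy N m x T / 2) / kk N) * ll N m + (4 + 2 * sg (yy N m x T / 2) +
            par (qs (sg (yy N m x T / 2) / kk N))) + 1 = T from h5.symm] at h6
          exact h6.2
        · unfold prs
          rw [if_pos (by omega)]
  · intro v hv
    rcases Nat.lt_or_ge v (nn N m) with hv' | hv'
    · have h1 : ((σ.symm ⟨v, hv'⟩ : Fin (nn N m)) : ℕ) < nn N m := (σ.symm ⟨v, hv'⟩).2
      obtain ⟨T, hT, hy⟩ := yy_ivt (N := N) (m := m) (x := x)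
        (2 * (σ.symm ⟨v, hv'⟩ : ℕ) + 1) (tt N m) (by omega)
      refine ⟨T, hT, ?_⟩
      have h2 : ¬ yy N m x T % 2 = 0 := by omega
      have h3 : yy N m x T / 2 = (σ.symm ⟨v, hv'⟩ : ℕ) := by omega
      simp only [h2, if_false, h3, hsg, dif_pos h1]
      simp
    · refine ⟨0, Nat.zero_le _, ?_⟩
      simp only [yy_zero]
      simp
      omega

end Pool.Agent.NPC.R542.Star
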