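import Pool.Agent.R542.Star.Form

/-!
# Visiting all vertices of a temporal star: hardness
-/

set_option autoImplicit false

namespace Pool.Agent.NPC.R542.Star

open Pool.Agent.H692R2 Pool.Agent.H673R2

/-! ### The problem -/

/-- `u` and `v` are adjacent vertices of `H`. -/
def HasEdge (H : FinGraph) (u v : ℕ) : Prop :=
  ∃ (hu : u < H.n) (hv : v < H.n), H.graph.Adj ⟨u, hu⟩ ⟨v, hv⟩

/-- The edge between `u` and `v` is available at time `τ` in the schedule `S`, a list of graphs with
durations. After the end of the schedule the last graph stays. -/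
def Available : List (FinGraph × ℕ) → ℕ → ℕ → ℕ → Prop
  | [], _, _, _ => False
  | (H, d) :: S, τ, u, v => if τ < d ∨ S = [] then HasEdge H u v else Available S (τ - d) u v

/-- An instance: a graph, a start vertex, a deadline and a schedule. -/
abbrev SInst : Type := FinGraph × ℕ × ℕ × List (FinGraph × ℕ)

/-- The graph is a star: one vertex, the centre, is adjacent to all others, and there are no other
edges. -/
def IsStar (G : FinGraph) : Prop :=
  ∃ c : Fin G.n, ∀ u v : Fin G.n, G.graph.Adj u v ↔ u ≠ v ∧ (u = c ∨ v = c)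

/-- The instance `(G, s, t, S)` is valid: `G` is a star, `s` is a vertex, `S` is a schedule of
subgraphs of `G` with positive durations, and every edge of `G` is available at least once in every
`Δ` consecutive steps. -/
def Valid (Δ : ℕ) (p : SInst) : Prop :=
  IsStar p.1 ∧ p.2.1 < p.1.n ∧
  (∀ x ∈ p.2.2.2, x.1.n = p.1.n ∧ 1 ≤ x.2 ∧ ∀ u v, HasEdge x.1 u v → HasEdge p.1 u v) ∧
  ∀ u v, HasEdge p.1 u v → ∀ τ, ∃ τ', τ ≤ τ' ∧ τ' < τ + Δ ∧ Available p.2.2.2 τ' u v

/-- An agent that starts at `s` at time `0`, and in each time step waits or crosses an available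
edge, can visit all vertices by time `t`. -/
def Covers (p : SInst) : Prop :=
  ∃ x : ℕ → ℕ, x 0 = p.2.1 ∧
    (∀ τ < p.2.2.1, x (τ + 1) = x τ ∨ Available p.2.2.2 τ (x τ) (x (τ + 1))) ∧
    ∀ v < p.1.n, ∃ τ ≤ p.2.2.1, x τ = v

/-! ### The instances of the reduction -/

/-- the star with centre `n` in which the edges of the leaves `v < n` with `E v` are present -/
def sgr (n : ℕ) (E : ℕ → Bool) : FinGraph :=
  ⟨n + 1, { Adj := fun i j => ((i : ℕ) = n ∧ (j : ℕ) < n ∧ E j = true) ∨
              ((j : ℕ) = n ∧ (i : ℕ) < n ∧ E i = true)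
            symm := ⟨fun i j h => h.symm⟩
            loopless := ⟨fun i h => by rcases h with h | h <;> omega⟩ }⟩

theorem hasEdge_sgr {n : ℕ} {E : ℕ → Bool} {u v : ℕ} : HasEdge (sgr n E) u v ↔
    (u = n ∧ v < n ∧ E v = true) ∨ (v = n ∧ u < n ∧ E u = true) := by
  constructor
  · rintro ⟨_, _, h⟩
    exact h
  · intro h
    refine ⟨?_, ?_, h⟩
    · change u < n + 1
      rcases h with h | h <;> omega
    · change v < n + 1
      rcases h with h | h <;> omega

/-- the schedule -/
def sched (n c : ℕ) (E : ℕ → ℕ → Bool) : List (FinGraph × ℕ) :=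
  (List.range c).map (fun T => (sgr n (fun v => E v T), 1)) ++ [(sgr n (fun _ => true), 1)]

theorem available_aux (n : ℕ) : ∀ (c : ℕ) (E : ℕ → ℕ → Bool) (τ u v : ℕ),
    Available (sched n c E) τ u v ↔
      HasEdge (sgr n (fun v => if τ < c then E v τ else true)) u v := by
  intro c
  induction c with
  | zero =>
    intro E τ u v
    simp [sched, Available]
  | succ c ih =>
    intro E τ u v
    have e : sched n (c + 1) E = (sgr n (fun v => E v 0), 1) :: sched n c (fun v T => E v (T + 1)) := by
      unfold sched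
      rw [List.range_succ_eq_map, List.map_cons, List.map_map, List.cons_append]
      rfl
    have hne : sched n c (fun v T => E v (T + 1)) ≠ [] := by
      unfold sched
      simp
    rw [e, Available]
    by_cases h : τ = 0
    · subst h
      rw [if_pos (Or.inl (by norm_num))]
      simp
    · rw [if_neg (by
        rintro (h' | h')
        · omega
        · exact hne h'), ih]
      have e2 : (fun v => if τ - 1 < c then E v (τ - 1 + 1) else true) =
          (fun v => if τ < c + 1 then E v τ else true) := by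
        funext w
        rw [Nat.sub_add_cancel (by omega)]
        by_cases h2 : τ < c + 1
        · rw [if_pos h2, if_pos (by omega)]
        · rw [if_neg h2, if_neg (by omega)]
      rw [e2]

/-- the instance of a formula -/
def inst (φ : F3) : SInst :=
  (sgr (nn (3 * φ.length) φ.length) (fun _ => true), nn (3 * φ.length) φ.length,
    tt (3 * φ.length) φ.length,
    sched (nn (3 * φ.length) φ.length) (2 * nn (3 * φ.length) φ.length + 3 * φ.length)
      (prs (3 * φ.length) φ.length (cl φ)))

theorem nn_pos (N m : ℕ) : 0 < nn N m := by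
  unfold nn qq
  exact Nat.mul_pos (by omega) ll_pos

theorem inst_valid (Δ : ℕ) (hΔ : 2 ≤ Δ) (φ : F3) : Valid Δ (inst φ) := by
  have hn := nn_pos (3 * φ.length) φ.length
  generalize hN : nn (3 * φ.length) φ.length = n at *
  have hc : n < (inst φ).1.n := by rw [← hN]; exact Nat.lt_succ_self _
  refine ⟨⟨⟨n, hc⟩, ?_⟩, ?_, ?_, ?_⟩
  · intro u v
    have e1 : u ≠ v ↔ ¬ (u : ℕ) = v := by rw [ne_eq, Fin.ext_iff]
    have e2 : ∀ w : Fin (inst φ).1.n, w = ⟨n, hc⟩ ↔ (w : ℕ) = n := fun w => Fin.ext_iff
    have hu : (u : ℕ) < n + 1 := by rw [← hN]; exact u.2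
    have hv : (v : ℕ) < n + 1 := by rw [← hN]; exact v.2
    have h1 : (inst φ).1.graph.Adj u v ↔ (((u : ℕ) = n ∧ (v : ℕ) < n ∧ true = true) ∨
        ((v : ℕ) = n ∧ (u : ℕ) < n ∧ true = true)) := by
      rw [← hN]
      exact Iff.rfl
    rw [h1, e1, e2, e2]
    simp only [and_true]
    omega
  · change nn (3 * φ.length) φ.length < nn (3 * φ.length) φ.length + 1
    exact Nat.lt_succ_self _
  · intro x hx
    have hx' : x ∈ sched (nn (3 * φ.length) φ.length)
        (2 * nn (3 * φ.length) φ.length + 3 * φ.length)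
        (prs (3 * φ.length) φ.length (cl φ)) := hx
    unfold sched at hx'
    rw [List.mem_append, List.mem_map, List.mem_singleton] at hx'
    rcases hx' with ⟨T, _, rfl⟩ | rfl
    · refine ⟨rfl, le_rfl, fun u v h => ?_⟩
      rw [hasEdge_sgr] at h
      change HasEdge (sgr (nn (3 * φ.length) φ.length) (fun _ => true)) u v
      rw [hasEdge_sgr]
      rcases h with h | h
      · exact Or.inl ⟨h.1, h.2.1, rfl⟩
      · exact Or.inr ⟨h.1, h.2.1, rfl⟩
    · exact ⟨rfl, le_rfl, fun u v h => h⟩
  · intro u v h τ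
    change HasEdge (sgr (nn (3 * φ.length) φ.length) (fun _ => true)) u v at h
    rw [hasEdge_sgr] at h
    have key : ∀ w, ∃ τ', τ ≤ τ' ∧ τ' < τ + Δ ∧
        (if τ' < 2 * nn (3 * φ.length) φ.length + 3 * φ.length then
          prs (3 * φ.length) φ.length (cl φ) w τ' else true) = true := by
      intro w
      rcases prs_or (N := 3 * φ.length) (m := φ.length) (cl := cl φ) w τ with h1 | h1
      · refine ⟨τ, le_rfl, by omega, ?_⟩
        split_ifs
        · exact h1
        · rfl
      · refine ⟨τ + 1, by omega, by omega, ?_⟩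
        split_ifs
        · exact h1
        · rfl
    rcases h with ⟨h1, h2, _⟩ | ⟨h1, h2, _⟩
    · obtain ⟨τ', a1, a2, a3⟩ := key v
      refine ⟨τ', a1, a2, ?_⟩
      change Available (sched _ _ _) τ' u v
      rw [available_aux, hasEdge_sgr]
      exact Or.inl ⟨h1, h2, a3⟩
    · obtain ⟨τ', a1, a2, a3⟩ := key u
      refine ⟨τ', a1, a2, ?_⟩
      change Available (sched _ _ _) τ' u v
      rw [available_aux, hasEdge_sgr]
      exact Or.inr ⟨h1, h2, a3⟩

theorem inst_covers (φ : F3) : Covers (inst φ) ↔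
    CoverW (nn (3 * φ.length) φ.length) (tt (3 * φ.length) φ.length)
      (prs (3 * φ.length) φ.length (cl φ)) := by
  have hn := nn_pos (3 * φ.length) φ.length
  have ht : tt (3 * φ.length) φ.length = 2 * nn (3 * φ.length) φ.length + 3 * φ.length - 1 := rfl
  refine exists_congr fun x => and_congr Iff.rfl (and_congr ?_ ?_)
  · refine forall_congr' fun τ => forall_congr' fun hτ => or_congr Iff.rfl ?_
    change Available (sched (nn (3 * φ.length) φ.length)
      (2 * nn (3 * φ.length) φ.length + 3 * φ.length)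
      (prs (3 * φ.length) φ.length (cl φ))) τ (x τ) (x (τ + 1)) ↔ _
    change τ < tt (3 * φ.length) φ.length at hτ
    have h1 : τ < 2 * nn (3 * φ.length) φ.length + 3 * φ.length := by omega
    rw [available_aux, hasEdge_sgr]
    simp only [h1, if_true]
  · refine forall_congr' fun v => ?_
    change (v < nn (3 * φ.length) φ.length + 1 → _) ↔ _
    rw [Nat.lt_succ_iff]
    rfl

/-! ### Computation -/

section
variable {α : Type} [TEnc α]

theorem poly_sgr {n : α → ℕ} {E : α → ℕ → Bool} (hn : UPoly n)
    (hE : Poly (fun p : α × ℕ => E p.1 p.2)) : Poly (fun a => sgr (n a) (E a)) := by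
  refine poly_finGraph (N := fun a => n a + 1)
    (b := fun a i j => (decide (i = n a) && (decide (j < n a) && E a j)) ||
      (decide (j = n a) && (decide (i < n a) && E a i)))
    (UPoly.add hn (UPoly.const 1)) ?_ ?_
  · have ea : Poly (fun p : (α × ℕ) × ℕ => p.1.1) := Poly.fst (Poly.fst Poly.id)
    have ei : Poly (fun p : (α × ℕ) × ℕ => p.1.2) := Poly.snd (Poly.fst Poly.id)
    have ej : Poly (fun p : (α × ℕ) × ℕ => p.2) := Poly.snd Poly.id
    have en : Poly (fun p : (α × ℕ) × ℕ => n p.1.1) := Poly.comp (g := n) hn.toPoly ea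
    have eEi : Poly (fun p : (α × ℕ) × ℕ => E p.1.1 p.1.2) :=
      Poly.comp (g := fun p : α × ℕ => E p.1 p.2) hE (Poly.pair ea ei)
    have eEj : Poly (fun p : (α × ℕ) × ℕ => E p.1.1 p.2) :=
      Poly.comp (g := fun p : α × ℕ => E p.1 p.2) hE (Poly.pair ea ej)
    exact Poly.or (Poly.and (Poly.decide_eq ei en) (Poly.and (Poly.decide_lt ej en) eEj))
      (Poly.and (Poly.decide_eq ej en) (Poly.and (Poly.decide_lt ei en) eEi))
  · intro a i j
    simp only [Bool.or_eq_true, Bool.and_eq_true, decide_eq_true_eq]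

theorem poly_inst : Poly inst := by
  have hφ : Poly (fun φ : F3 => φ) := Poly.id
  have hn := upoly_nn hφ
  have hfull : Poly (fun φ : F3 => sgr (nn (3 * φ.length) φ.length) (fun _ => true)) :=
    poly_sgr (E := fun _ _ => true) hn (Poly.const true)
  have hfull1 : Poly (fun φ : F3 =>
      [((sgr (nn (3 * φ.length) φ.length) (fun _ => true), 1) : FinGraph × ℕ)]) :=
    Poly.cons (Poly.pair hfull (Poly.const 1)) (Poly.const [])
  have hc : UPoly (fun φ : F3 => 2 * nn (3 * φ.length) φ.length + 3 * φ.length) :=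
    UPoly.add (UPoly.mul (UPoly.const 2) hn) (upoly_3len hφ)
  have hsnap : Poly (fun p : F3 × ℕ => ((sgr (nn (3 * p.1.length) p.1.length)
      (fun v => prs (3 * p.1.length) p.1.length (cl p.1) v p.2), 1) : FinGraph × ℕ)) := by
    have e1 : UPoly (fun p : F3 × ℕ => nn (3 * p.1.length) p.1.length) :=
      UPoly.comp (n := fun φ : F3 => nn (3 * φ.length) φ.length) hn (Poly.fst Poly.id)
    have e2 : Poly (fun p : (F3 × ℕ) × ℕ =>
        prs (3 * p.1.1.length) p.1.1.length (cl p.1.1) p.2 p.1.2) :=
      poly_prs (Poly.fst (Poly.fst Poly.id)) (Poly.snd Poly.id) (Poly.snd (Poly.fst Poly.id))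
    have e3 : Poly (fun p : F3 × ℕ => sgr (nn (3 * p.1.length) p.1.length)
        (fun v => prs (3 * p.1.length) p.1.length (cl p.1) v p.2)) :=
      poly_sgr (E := fun (p : F3 × ℕ) v => prs (3 * p.1.length) p.1.length (cl p.1) v p.2) e1 e2
    exact Poly.pair e3 (Poly.const 1)
  have hmap : Poly (fun φ : F3 =>
      (List.range (2 * nn (3 * φ.length) φ.length + 3 * φ.length)).map (fun T =>
        ((sgr (nn (3 * φ.length) φ.length)
          (fun v => prs (3 * φ.length) φ.length (cl φ) v T), 1) : FinGraph × ℕ))) :=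
    Poly.map (l := fun φ : F3 => List.range (2 * nn (3 * φ.length) φ.length + 3 * φ.length))
      (F := fun φ T => ((sgr (nn (3 * φ.length) φ.length)
          (fun v => prs (3 * φ.length) φ.length (cl φ) v T), 1) : FinGraph × ℕ))
      (UPoly.range hc) hsnap
  have hsched : Poly (fun φ : F3 => sched (nn (3 * φ.length) φ.length)
      (2 * nn (3 * φ.length) φ.length + 3 * φ.length)
      (prs (3 * φ.length) φ.length (cl φ))) := Poly.append hmap hfull1
  exact Poly.pair hfull (Poly.pair hn.toPoly (Poly.pair (poly_tt hφ) hsched))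

end

/-- **Hardness.** -/
theorem star_hard (Δ : ℕ) (hΔ : 2 ≤ Δ) : NPHardOn (Valid Δ) Covers :=
  npHardOn_of hardI_SAT3.toHardPr poly_inst (fun φ _ => inst_valid Δ hΔ φ) (fun φ _ => by
    rw [inst_covers, satB_iff]
    exact ⟨fwd, bwd (cl_lt φ)⟩)

end Pool.Agent.NPC.R542.Star
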