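import Mathlib

/-!
# The star with a schedule that encodes a formula: the patterns of the leaves
-/

set_option autoImplicit false

namespace Pool.Agent.NPC.R542.Star

/-- copies of each group -/
def kk (N : ℕ) : ℕ := 7 * N + 4
/-- leaves in groups -/
def gg (N m : ℕ) : ℕ := kk N * (N + 1 + m)
/-- length of a segment -/
def ll (N m : ℕ) : ℕ := 2 * gg N m + 10
/-- segments -/
def qq (N : ℕ) : ℕ := 3 * N + 1
/-- leaves -/
def nn (N m : ℕ) : ℕ := qq N * ll N m
/-- deadline -/
def tt (N m : ℕ) : ℕ := 2 * nn N m + N - 1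

/-- the parity of a segment -/
def par (q : ℕ) : ℕ := (q / 3 + q % 3 % 2) % 2

/-- The group `g` may be served in the segment `q`. -/
def alw (N : ℕ) (cl : ℕ → ℕ → Bool → Bool) (g q : ℕ) : Bool :=
  if g ≤ N then decide (q = 3 * g) else
    (decide (q % 3 = 1) && cl (g - N - 1) (q / 3) false) ||
    (decide (q % 3 = 2) && cl (g - N - 1) (q / 3) true)

/-- presence at the offset `o` of a segment of parity `p`, where the leaf may be served at the
offset `δ` -/
def pat (L δ o p : ℕ) : Bool :=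
  if p = 0 then !(decide (o = 0) || ((decide (o % 2 = 1) && decide (3 ≤ o)) && decide (o < δ)) ||
    (decide (o % 2 = 0) && decide (δ + 2 ≤ o)))
  else !((decide (o % 2 = 0) && decide (o < δ)) ||
    ((decide (o % 2 = 1) && decide (δ + 2 ≤ o)) && decide (o + 3 ≤ L)))

/-- presence of the edge of the leaf `v` at time `T` -/
def prs (N m : ℕ) (cl : ℕ → ℕ → Bool → Bool) (v T : ℕ) : Bool :=
  if gg N m ≤ v then true else
    if alw N cl (v / kk N) (T / ll N m) = true then
      pat (ll N m) (4 + 2 * v + par (T / ll N m)) (T % ll N m) (par (T / ll N m))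
    else decide (T % ll N m % 2 = 1)

theorem par_lt (q : ℕ) : par q < 2 := Nat.mod_lt _ (by norm_num)

theorem succ_div_mod {L T : ℕ} (hL : 0 < L) :
    (T % L + 1 < L ∧ (T + 1) / L = T / L ∧ (T + 1) % L = T % L + 1) ∨
    (T % L + 1 = L ∧ (T + 1) / L = T / L + 1 ∧ (T + 1) % L = 0) := by
  have h1 := Nat.mod_lt T hL
  have h2 := Nat.div_add_mod T L
  rcases Nat.lt_or_ge (T % L + 1) L with h | h
  · left
    have h3 : T + 1 = L * (T / L) + (T % L + 1) := by omega
    refine ⟨h, ?_, ?_⟩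
    · rw [h3, Nat.mul_add_div hL, Nat.div_eq_of_lt h, Nat.add_zero]
    · rw [h3, Nat.mul_add_mod, Nat.mod_eq_of_lt h]
  · right
    have h0 : T % L + 1 = L := by omega
    have h3 : T + 1 = L * (T / L + 1) := by rw [Nat.mul_add, Nat.mul_one]; omega
    refine ⟨h0, ?_, ?_⟩
    · rw [h3, Nat.mul_div_cancel_left _ hL]
    · rw [h3, Nat.mul_mod_right]

variable {N m : ℕ} {cl : ℕ → ℕ → Bool → Bool}

theorem ll_pos : 0 < ll N m := by unfold ll; omega

theorem pat_last {L δ o p : ℕ} (h2 : L % 2 = 0) (hL : 10 ≤ L) (hδ : δ + 7 ≤ L)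
    (ho : o + 1 = L) (hp : p < 2) : pat L δ o p = true := by
  unfold pat
  split_ifs <;> simp <;> omega

theorem pat_zero {L δ p : ℕ} (hδ : 4 ≤ δ) : pat L δ 0 p = false := by
  unfold pat
  split_ifs <;> simp
  omega

theorem pat_or {L δ o p : ℕ} (h2 : L % 2 = 0) (hL : 10 ≤ L) (hδ : δ + 7 ≤ L) (hδ4 : 4 ≤ δ)
    (hδp : δ % 2 = p) (ho : o + 1 < L) : pat L δ o p = true ∨ pat L δ (o + 1) p = true := by
  unfold pat
  split_ifs <;> simp <;> omega

theorem pat_and {L δ o p : ℕ} (h2 : L % 2 = 0) (hL : 10 ≤ L) (hδ : δ + 7 ≤ L) (hδ4 : 4 ≤ δ)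
    (hδp : δ % 2 = p) (ho : o + 1 < L) (h1 : pat L δ o p = true)
    (h3 : pat L δ (o + 1) p = true) : o = δ ∨ o = 1 ∨ o + 2 = L := by
  unfold pat at h1 h3
  split_ifs at h1 h3 <;> simp at h1 h3 <;> omega

theorem pat_des {L δ p : ℕ} (hδ4 : 4 ≤ δ) (hδp : δ % 2 = p) :
    pat L δ δ p = true ∧ pat L δ (δ + 1) p = true := by
  unfold pat
  split_ifs <;> simp <;> omega

theorem delta_bound {v q : ℕ} (hv : v < gg N m) : 4 + 2 * v + par q + 7 ≤ ll N m := by
  have := par_lt q
  unfold ll
  omega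

theorem delta_mod (v q : ℕ) : (4 + 2 * v + par q) % 2 = par q := by
  have := par_lt q
  omega

/-- No edge is absent twice in a row. -/
theorem prs_or (v T : ℕ) : prs N m cl v T = true ∨ prs N m cl v (T + 1) = true := by
  unfold prs
  by_cases hv : gg N m ≤ v
  · simp [hv]
  rw [if_neg hv, if_neg hv]
  have hL : ll N m % 2 = 0 := by unfold ll; omega
  have hL10 : 10 ≤ ll N m := by unfold ll; omega
  have hd : 4 + 2 * v + par (T / ll N m) + 7 ≤ ll N m := delta_bound (by omega)
  rcases succ_div_mod (T := T) (ll_pos (N := N) (m := m)) with ⟨h1, h2, h3⟩ | ⟨h1, h2, h3⟩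
  · rw [h2, h3]
    by_cases ha : alw N cl (v / kk N) (T / ll N m) = true
    · rw [if_pos ha, if_pos ha]
      exact pat_or hL hL10 hd (by omega) (delta_mod _ _) h1
    · rw [if_neg ha, if_neg ha]
      simp only [decide_eq_true_eq]
      omega
  · left
    by_cases ha : alw N cl (v / kk N) (T / ll N m) = true
    · rw [if_pos ha]
      exact pat_last hL hL10 hd h1 (par_lt _)
    · rw [if_neg ha]
      simp only [decide_eq_true_eq]
      omega

/-- The times at which a leaf of a group can be visited without loss. -/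
theorem prs_slot {v T : ℕ} (hv : v < gg N m) (h1 : prs N m cl v T = true)
    (h2 : prs N m cl v (T + 1) = true) : alw N cl (v / kk N) (T / ll N m) = true ∧
      (T % ll N m = 4 + 2 * v + par (T / ll N m) ∨ T % ll N m = 1 ∨
        T % ll N m + 2 = ll N m) := by
  unfold prs at h1 h2
  rw [if_neg (by omega)] at h1 h2
  have hL : ll N m % 2 = 0 := by unfold ll; omega
  have hL10 : 10 ≤ ll N m := by unfold ll; omega
  have hd : 4 + 2 * v + par (T / ll N m) + 7 ≤ ll N m := delta_bound hv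
  rcases succ_div_mod (T := T) (ll_pos (N := N) (m := m)) with ⟨e1, e2, e3⟩ | ⟨e1, e2, e3⟩
  · rw [e2, e3] at h2
    by_cases ha : alw N cl (v / kk N) (T / ll N m) = true
    · rw [if_pos ha] at h1 h2
      exact ⟨ha, pat_and hL hL10 hd (by omega) (delta_mod _ _) e1 h1 h2⟩
    · rw [if_neg ha] at h1 h2
      simp only [decide_eq_true_eq] at h1 h2
      omega
  · exfalso
    rw [e3] at h2
    by_cases ha : alw N cl (v / kk N) ((T + 1) / ll N m) = true
    · rw [if_pos ha, pat_zero (by omega)] at h2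
      exact absurd h2 (by decide)
    · rw [if_neg ha] at h2
      simp at h2

/-- The designated slot. -/
theorem prs_des {v q : ℕ} (hv : v < gg N m) (ha : alw N cl (v / kk N) q = true) :
    prs N m cl v (q * ll N m + (4 + 2 * v + par q)) = true ∧
    prs N m cl v (q * ll N m + (4 + 2 * v + par q) + 1) = true := by
  have hd : 4 + 2 * v + par q + 7 ≤ ll N m := delta_bound hv
  have e1 : ∀ o, o < ll N m → (q * ll N m + o) / ll N m = q ∧ (q * ll N m + o) % ll N m = o := by
    intro o ho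
    constructor
    · rw [mul_comm, Nat.mul_add_div ll_pos, Nat.div_eq_of_lt ho, Nat.add_zero]
    · rw [mul_comm, Nat.mul_add_mod, Nat.mod_eq_of_lt ho]
  obtain ⟨a1, a2⟩ := e1 (4 + 2 * v + par q) (by omega)
  obtain ⟨b1, b2⟩ := e1 (4 + 2 * v + par q + 1) (by omega)
  obtain ⟨p1, p2⟩ := pat_des (L := ll N m) (δ := 4 + 2 * v + par q) (p := par q) (by omega)
    (delta_mod _ _)
  have hv' : ¬ gg N m ≤ v := by omega
  unfold prs
  rw [if_neg hv', if_neg hv', a1, a2, add_assoc (q * ll N m), b1, b2, if_pos ha, if_pos ha]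
  exact ⟨p1, p2⟩

end Pool.Agent.NPC.R542.Star
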